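import Mathlib
import Pool.Agent.PrimeScore.Defs
import Pool.Agent.PrimeScore.Basic
import Pool.Agent.PrimeScore.C1
import Pool.Agent.PrimeScore.C2
import Pool.Agent.PrimeScore.C3
import Pool.Agent.PrimeScore.C4
import Pool.Agent.PrimeScore.C5
import Pool.Agent.PrimeScore.C6
import Pool.Agent.PrimeScore.C7

namespace Pool.Agent.Results.MP_69d63a_nt.Witness

open Pool.Agent.PrimeScore

theorem p_of_count {k q : ℕ} (hq : Nat.Prime q) (hk : Nat.count Nat.Prime q = k) :
    p k = q := by
  rw [← hk]
  exact p_count hq

theorem a_sixteen : a 16 = 3 := by
  have h0 : p 0 = 2 := p_of_count (by norm_num) (by decide)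
  have h1 : p 1 = 3 := p_of_count (by norm_num) (by decide)
  have h2 : p 2 = 5 := p_of_count (by norm_num) (by decide)
  have h3 : p 3 = 7 := p_of_count (by norm_num) (by decide)
  have h4 : p 4 = 11 := p_of_count (by norm_num) (by decide)
  have h5 : p 5 = 13 := p_of_count (by norm_num) (by decide)
  have h6 : p 6 = 17 := p_of_count (by norm_num) (by decide)
  have h7 : p 7 = 19 := p_of_count (by norm_num) (by decide)
  have h8 : p 8 = 23 := p_of_count (by norm_num) (by decide)
  have h9 : p 9 = 29 := p_of_count (by norm_num) (by decide)
  have h10 : p 10 = 31 := p_of_count (by norm_num) (by decide)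
  have h11 : p 11 = 37 := p_of_count (by norm_num) (by decide)
  have h12 : p 12 = 41 := p_of_count (by norm_num) (by decide)
  have h13 : p 13 = 43 := p_of_count (by norm_num) (by decide)
  have h14 : p 14 = 47 := p_of_count (by norm_num) (by decide)
  have h15 : p 15 = 53 := p_of_count (by norm_num) (by decide)
  have h16 : p 16 = 59 := p_of_count (by norm_num) (by decide)
  have e1 : a 1 = 0 := by simp [a]
  rw [a_succ 14, a_succ 13, a_succ 12, a_succ 11, a_succ 10, a_succ 9, a_succ 8, a_succ 7,
    a_succ 6, a_succ 5, a_succ 4, a_succ 3, a_succ 2, a_succ 1, a_succ 0]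
  simp only [gg, zero_add, Nat.reduceAdd]
  rw [h0, h1, h2, h3, h4, h5, h6, h7, h8, h9, h10, h11, h12, h13, h14, h15, h16, e1]
  decide

theorem enc53 : Enc 53 = 64424509458 := by
  have h : Nat.count Nat.Prime 53 = 15 := by decide
  unfold Enc
  rw [h, a_sixteen]
  norm_num

theorem encEnd : Enc 3666533 = 1121626414644254 := by
  have h0 := enc53
  have h1 : Enc 2101 = 1361504633160 :=
    (S_chain (K := 52) (k := 10) (x := 53) (by norm_num) (by norm_num) (by norm_num) (by norm_num) (by norm_num) c0 (by norm_num [poison]) h0).trans (by norm_num)
  have h2 : Enc 133173 = 53382148534484 :=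
    (S_chain (K := 1935) (k := 16) (x := 2101) (by norm_num) (by norm_num) (by norm_num) (by norm_num) (by norm_num) c1 (by norm_num [poison]) h1).trans (by norm_num)
  have h3 : Enc 264245 = 99514392271546 :=
    (S_chain (K := 1935) (k := 16) (x := 133173) (by norm_num) (by norm_num) (by norm_num) (by norm_num) (by norm_num) c2 (by norm_num [poison]) h2).trans (by norm_num)
  have h4 : Enc 395317 = 143894289351426 :=
    (S_chain (K := 1935) (k := 16) (x := 264245) (by norm_num) (by norm_num) (by norm_num) (by norm_num) (by norm_num) c3 (by norm_num [poison]) h3).trans (by norm_num)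
  have h5 : Enc 526389 = 187054415718956 :=
    (S_chain (K := 1935) (k := 16) (x := 395317) (by norm_num) (by norm_num) (by norm_num) (by norm_num) (by norm_num) c4 (by norm_num [poison]) h4).trans (by norm_num)
  have h6 : Enc 657461 = 229243879477412 :=
    (S_chain (K := 1935) (k := 16) (x := 526389) (by norm_num) (by norm_num) (by norm_num) (by norm_num) (by norm_num) c5 (by norm_num [poison]) h5).trans (by norm_num)
  have h7 : Enc 788533 = 271029616309952 :=
    (S_chain (K := 1935) (k := 16) (x := 657461) (by norm_num) (by norm_num) (by norm_num) (by norm_num) (by norm_num) c6 (by norm_num [poison]) h6).trans (by norm_num)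
  have h8 : Enc 919605 = 312265597328477 :=
    (S_chain (K := 1935) (k := 16) (x := 788533) (by norm_num) (by norm_num) (by norm_num) (by norm_num) (by norm_num) c7 (by norm_num [poison]) h7).trans (by norm_num)
  have h9 : Enc 1050677 = 352938937631060 :=
    (S_chain (K := 1935) (k := 16) (x := 919605) (by norm_num) (by norm_num) (by norm_num) (by norm_num) (by norm_num) c8 (by norm_num [poison]) h8).trans (by norm_num)
  have h10 : Enc 1181749 = 393526378587767 :=
    (S_chain (K := 1935) (k := 16) (x := 1050677) (by norm_num) (by norm_num) (by norm_num) (by norm_num) (by norm_num) c9 (by norm_num [poison]) h9).trans (by norm_num)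
  have h11 : Enc 1312821 = 433503934188237 :=
    (S_chain (K := 1935) (k := 16) (x := 1181749) (by norm_num) (by norm_num) (by norm_num) (by norm_num) (by norm_num) c10 (by norm_num [poison]) h10).trans (by norm_num)
  have h12 : Enc 1443893 = 473292511227634 :=
    (S_chain (K := 1935) (k := 16) (x := 1312821) (by norm_num) (by norm_num) (by norm_num) (by norm_num) (by norm_num) c11 (by norm_num [poison]) h11).trans (by norm_num)
  have h13 : Enc 1574965 = 512870634869416 :=
    (S_chain (K := 1935) (k := 16) (x := 1443893) (by norm_num) (by norm_num) (by norm_num) (by norm_num) (by norm_num) c12 (by norm_num [poison]) h12).trans (by norm_num)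
  have h14 : Enc 1706037 = 552143815833119 :=
    (S_chain (K := 1935) (k := 16) (x := 1574965) (by norm_num) (by norm_num) (by norm_num) (by norm_num) (by norm_num) c13 (by norm_num [poison]) h13).trans (by norm_num)
  have h15 : Enc 1837109 = 591206543399285 :=
    (S_chain (K := 1935) (k := 16) (x := 1706037) (by norm_num) (by norm_num) (by norm_num) (by norm_num) (by norm_num) c14 (by norm_num [poison]) h14).trans (by norm_num)
  have h16 : Enc 1968181 = 630256386063579 :=
    (S_chain (K := 1935) (k := 16) (x := 1837109) (by norm_num) (by norm_num) (by norm_num) (by norm_num) (by norm_num) c15 (by norm_num [poison]) h15).trans (by norm_num)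
  have h17 : Enc 2099253 = 668962631344108 :=
    (S_chain (K := 1935) (k := 16) (x := 1968181) (by norm_num) (by norm_num) (by norm_num) (by norm_num) (by norm_num) c16 (by norm_num [poison]) h16).trans (by norm_num)
  have h18 : Enc 2230325 = 707552912507654 :=
    (S_chain (K := 1935) (k := 16) (x := 2099253) (by norm_num) (by norm_num) (by norm_num) (by norm_num) (by norm_num) c17 (by norm_num [poison]) h17).trans (by norm_num)
  have h19 : Enc 2361397 = 745833956025798 :=
    (S_chain (K := 1935) (k := 16) (x := 2230325) (by norm_num) (by norm_num) (by norm_num) (by norm_num) (by norm_num) c18 (by norm_num [poison]) h18).trans (by norm_num)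
  have h20 : Enc 2492469 = 784093524707425 :=
    (S_chain (K := 1935) (k := 16) (x := 2361397) (by norm_num) (by norm_num) (by norm_num) (by norm_num) (by norm_num) c19 (by norm_num [poison]) h19).trans (by norm_num)
  have h21 : Enc 2623541 = 822288668879549 :=
    (S_chain (K := 1935) (k := 16) (x := 2492469) (by norm_num) (by norm_num) (by norm_num) (by norm_num) (by norm_num) c20 (by norm_num [poison]) h20).trans (by norm_num)
  have h22 : Enc 2754613 = 860281949588872 :=
    (S_chain (K := 1935) (k := 16) (x := 2623541) (by norm_num) (by norm_num) (by norm_num) (by norm_num) (by norm_num) c21 (by norm_num [poison]) h21).trans (by norm_num)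
  have h23 : Enc 2885685 = 898318179971090 :=
    (S_chain (K := 1935) (k := 16) (x := 2754613) (by norm_num) (by norm_num) (by norm_num) (by norm_num) (by norm_num) c22 (by norm_num [poison]) h22).trans (by norm_num)
  have h24 : Enc 3016757 = 936032287806073 :=
    (S_chain (K := 1935) (k := 16) (x := 2885685) (by norm_num) (by norm_num) (by norm_num) (by norm_num) (by norm_num) c23 (by norm_num [poison]) h23).trans (by norm_num)
  have h25 : Enc 3147829 = 973600366752958 :=
    (S_chain (K := 1935) (k := 16) (x := 3016757) (by norm_num) (by norm_num) (by norm_num) (by norm_num) (by norm_num) c24 (by norm_num [poison]) h24).trans (by norm_num)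
  have h26 : Enc 3278901 = 1011580762560326 :=
    (S_chain (K := 1935) (k := 16) (x := 3147829) (by norm_num) (by norm_num) (by norm_num) (by norm_num) (by norm_num) c25 (by norm_num [poison]) h25).trans (by norm_num)
  have h27 : Enc 3409973 = 1048891143469372 :=
    (S_chain (K := 1935) (k := 16) (x := 3278901) (by norm_num) (by norm_num) (by norm_num) (by norm_num) (by norm_num) c26 (by norm_num [poison]) h26).trans (by norm_num)
  have h28 : Enc 3541045 = 1085845042092820 :=
    (S_chain (K := 1935) (k := 16) (x := 3409973) (by norm_num) (by norm_num) (by norm_num) (by norm_num) (by norm_num) c27 (by norm_num [poison]) h27).trans (by norm_num)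
  have h29 : Enc 3606581 = 1104536739769468 :=
    (S_chain (K := 1935) (k := 15) (x := 3541045) (by norm_num) (by norm_num) (by norm_num) (by norm_num) (by norm_num) c28 (by norm_num [poison]) h28).trans (by norm_num)
  have h30 : Enc 3639349 = 1114020027561259 :=
    (S_chain (K := 1935) (k := 14) (x := 3606581) (by norm_num) (by norm_num) (by norm_num) (by norm_num) (by norm_num) c29 (by norm_num [poison]) h29).trans (by norm_num)
  have h31 : Enc 3655733 = 1118508268386614 :=
    (S_chain (K := 1935) (k := 13) (x := 3639349) (by norm_num) (by norm_num) (by norm_num) (by norm_num) (by norm_num) c30 (by norm_num [poison]) h30).trans (by norm_num)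
  have h32 : Enc 3663925 = 1120866205432674 :=
    (S_chain (K := 1935) (k := 12) (x := 3655733) (by norm_num) (by norm_num) (by norm_num) (by norm_num) (by norm_num) c31 (by norm_num [poison]) h31).trans (by norm_num)
  have h33 : Enc 3665973 = 1121458910919660 :=
    (S_chain (K := 1935) (k := 10) (x := 3663925) (by norm_num) (by norm_num) (by norm_num) (by norm_num) (by norm_num) c32 (by norm_num [poison]) h32).trans (by norm_num)
  have h34 : Enc 3666485 = 1121613529742362 :=
    (S_chain (K := 1935) (k := 8) (x := 3665973) (by norm_num) (by norm_num) (by norm_num) (by norm_num) (by norm_num) c33 (by norm_num [poison]) h33).trans (by norm_num)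
  have h35 : Enc 3666517 = 1121617824709658 :=
    (S_chain (K := 1935) (k := 4) (x := 3666485) (by norm_num) (by norm_num) (by norm_num) (by norm_num) (by norm_num) c34 (by norm_num [poison]) h34).trans (by norm_num)
  have h36 : Enc 3666533 = 1121626414644254 :=
    (S_chain (K := 1935) (k := 3) (x := 3666517) (by norm_num) (by norm_num) (by norm_num) (by norm_num) (by norm_num) c35 (by norm_num [poison]) h35).trans (by norm_num)
  exact h36

theorem count_and_a : Nat.count Nat.Prime 3666533 = 261149 ∧
    a (Nat.count Nat.Prime 3666533 + 1) = 1 := by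
  have h := encEnd
  unfold Enc at h
  have h1 := abs_a_le (Nat.count Nat.Prime 3666533 + 1)
  have h2 : Nat.count Nat.Prime 3666533 ≤ 3666533 := Nat.count_le _
  rw [abs_le] at h1
  push_cast at h1
  generalize Nat.count Nat.Prime 3666533 = c at *
  generalize a (c + 1) = s at *
  omega

/-- `a(261150) = 1`; hence there is an integer `n > 250000` with `a(n) > 0`. -/
theorem result : a 261150 = 1 ∧ ∃ n : ℕ, 250000 < n ∧ 0 < a n := by
  obtain ⟨h1, h2⟩ := count_and_a
  rw [h1] at h2
  have h3 : a 261150 = 1 := h2
  exact ⟨h3, 261150, by norm_num, by rw [h3]; norm_num⟩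

end Pool.Agent.Results.MP_69d63a_nt.Witness
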